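import Pool.Agent.Run7.h49.JT.Iface

/-!
# Piece A1
-/

set_option autoImplicit false

namespace Run7.h49.JT

open Pool.Agent.R277.JT Set Filter Topology

theorem prove_A1 : S_A1 := by
  classical
  intro y c
  have hc1 : {d : Br | Lm (br d) y ≠ 0}.Countable := by
    apply (summable_Lm_sq y).countable_support.mono
    intro d hd
    exact pow_ne_zero 2 hd
  let u : ℕ → Br := fun n j => decide (j = n)
  have hu : Function.Injective u := by
    intro n m h
    have := congrFun h n
    simpa [u] using this
  let S : Set Br := {d : Br | Lm (br d) y ≠ 0} ∪ ({c} ∪ range u)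
  have hS : S.Countable := hc1.union ((countable_singleton c).union (countable_range u))
  have hSi : S.Infinite := (infinite_range_of_injective hu).mono
    (fun x hx => Or.inr (Or.inr hx))
  have h1 : Countable S := hS.to_subtype
  have h2 : Infinite S := hSi.to_subtype
  obtain ⟨h3⟩ := nonempty_denumerable S
  let e : S ≃ ℕ := Denumerable.eqv S
  have hcS : c ∈ S := Or.inr (Or.inl rfl)
  let e' : S ≃ ℕ := e.trans (Equiv.swap (e ⟨c, hcS⟩) 0)
  refine ⟨fun i => (e'.symm i : Br), ?_, ?_, ?_⟩
  · intro i j h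
    exact e'.symm.injective (Subtype.ext h)
  · have : e' ⟨c, hcS⟩ = 0 := by
      change Equiv.swap (e ⟨c, hcS⟩) 0 (e ⟨c, hcS⟩) = 0
      exact Equiv.swap_apply_left _ _
    change ((e'.symm 0 : S) : Br) = c
    rw [← this, Equiv.symm_apply_apply]
  · intro d hd
    refine ⟨e' ⟨d, Or.inl hd⟩, ?_⟩
    change ((e'.symm (e' ⟨d, Or.inl hd⟩) : S) : Br) = d
    rw [Equiv.symm_apply_apply]

end Run7.h49.JT
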