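import Pool.Agent.Run7.h49.JT.Final
import Pool.Agent.Run7.h49.JT.A1
import Pool.Agent.Run7.h116.JT.U234
import Pool.Agent.Run7.h194.JT.B
import Pool.Agent.Run7.h194.JT.L
import Pool.Agent.Run7.h382.JT.A2
import Pool.Agent.Run7.h382.JT.C12
import Pool.Agent.Run7.h56.JT.L4
import Pool.Agent.Run7.h639.JT.N1
import Pool.Agent.Run7.h639.JT.U1
import Pool.Agent.Run7.h639.JT.U6
import Pool.Agent.Run7.h644.JT.U8
import Pool.Agent.Run7.h722.JT.C3
import Pool.Agent.Run7.h744.JT.A3A4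
import Pool.Agent.Run7.h760.JT.U5

/-!
# All pieces together (helper file for MP_245e03_an, Q2)
-/

set_option autoImplicit false

namespace Run7.h49.JT

theorem all_C3 : S_C3 :=
  have hC1 : S_C1 := Pool.Agent.Run7.h382.JT.t_C1 Pool.Agent.Run7.h382.JT.t_A2 Run7.h744.JT.prove_A4
    Run7.h194.JT.t_B1 Run7.h194.JT.t_B2 Run7.h194.JT.t_B3
  Run7.h722.JT.prove_C3 Run7.h744.JT.prove_A3 hC1 (Pool.Agent.Run7.h382.JT.t_C2 hC1)

theorem all_U8 : S_U8 :=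
  Run7.h644.JT.prove_U8
    (Run7.h760.JT.prove_U5 Run7.h639.JT.prove_U1 Run7.h116.JT.prove_U2 Run7.h116.JT.prove_U3
      Run7.h116.JT.prove_U4)
    Run7.h639.JT.prove_U6 (Run7.h116.JT.prove_U7 Run7.h639.JT.prove_U6)

theorem all_L4 : S_L4 :=
  Pool.Agent.Run7.h56.JT.prove_L4 (Run7.h116.JT.prove_L1 Run7.h639.JT.prove_U6) Run7.h194.JT.t_L2
    Run7.h194.JT.t_L3 Run7.h639.JT.prove_U6

theorem all_N1 : S_N1 := Run7.h639.JT.prove_N1

end Run7.h49.JT
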