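import Pool.Agent.Run7.h49.JT.Iface

/-!
# Assembly (helper file for MP_245e03_an, Q2)
-/

set_option autoImplicit false

namespace Run7.h49.JT

open Pool.Agent.R277.JT Set Filter Topology UniformSpace

/-- inside the dual of the finitely supported functions -/
theorem main_D (hA1 : S_A1) (hN1 : S_N1) (hC3 : S_C3) (hU8 : S_U8) (hL4 : S_L4)
    (Y : Submodule ℝ (D Tree)) (hY : ¬ TopologicalSpace.IsSeparable (Y : Set (D Tree))) :
    ∃ v : Tree → D Tree, (∀ t, v t ∈ Y) ∧ ∃ C : ℝ, ∀ a : Tree →₀ ℝ,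
      ‖Finsupp.linearCombination ℝ v a‖ ≤ C * ‖Finsupp.linearCombination ℝ es a‖ ∧
      ‖Finsupp.linearCombination ℝ es a‖ ≤ 2 * ‖Finsupp.linearCombination ℝ v a‖ := by
  obtain ⟨Z, y, M, hZ, hy⟩ := hN1 Y hY
  choose σ h1 h2 h3 using fun c : Br => hA1 (y c) c
  have hF : Fam Z y σ M := ⟨hZ, fun c hc => (hy c hc).2.1, h1, h2, h3, fun c hc => (hy c hc).2.2⟩
  obtain ⟨c, I, k, K, ε, hc, hg, hs⟩ := hC3 Z y σ M hF (1 / 2) (by norm_num)
  obtain ⟨C, hC⟩ := hU8 _ _ _ _ _ _ _ _ hs (1 / 2) (by norm_num) hg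
  have hL := hL4 _ _ _ _ _ _ _ _ hs (1 / 2) (by norm_num) le_rfl hg
  refine ⟨fun t => y (c (io t)) - y (c (io t / 2)), fun t => ?_, C, fun a => ⟨hC a, hL a⟩⟩
  exact Y.sub_mem (hy _ (hc _)).1 (hy _ (hc _)).1

lemma es_ev_self (a : Tree) : es a (ev a) = 1 := by
  rw [es_apply, val_ev_self]

lemma es_ev_ne {a b : Tree} (h : b ≠ a) : es a (ev b) = 0 := by
  rw [es_apply, val_ev_ne h]

lemma eq_es {f : D Tree} {a : Tree} (h1 : f (ev a) = 1) (h2 : ∀ b, b ≠ a → f (ev b) = 0) :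
    f = es a := by
  apply D_ext
  intro b
  by_cases h : b = a
  · subst h; rw [h1, es_ev_self]
  · rw [h2 b h, es_ev_ne h]

theorem main_abs (hA1 : S_A1) (hN1 : S_N1) (hC3 : S_C3) (hU8 : S_U8) (hL4 : S_L4)
    {E : Type*} [NormedAddCommGroup E] [NormedSpace ℝ E] [CompleteSpace E] (j : E ≃ₗᵢ[ℝ] D Tree)
    (Y : Submodule ℝ E) (hYc : IsClosed (Y : Set E)) (hY : ¬ TopologicalSpace.SeparableSpace Y) :
    ∃ Z : Submodule ℝ Y, IsClosed (Z : Set Y) ∧
      Nonempty (Z ≃L[ℝ] (Submodule.span ℝ (range fun a => j.symm (es a))).topologicalClosure) := by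
  classical
  have h2 : CompleteSpace Y := hYc.completeSpace_coe
  have hYs : ¬ TopologicalSpace.IsSeparable
      ((Y.map (j.toLinearEquiv : E →ₗ[ℝ] D Tree) : Submodule ℝ (D Tree)) : Set (D Tree)) := by
    intro h
    apply hY
    have h3 := h.image j.symm.continuous
    have h4 : j.symm '' ((Y.map (j.toLinearEquiv : E →ₗ[ℝ] D Tree) : Submodule ℝ (D Tree)) :
        Set (D Tree)) = (Y : Set E) := by
      ext f
      constructor
      · rintro ⟨g, ⟨f', hf', rfl⟩, rfl⟩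
        have : j.symm (j f') = f' := j.symm_apply_apply f'
        change j.symm (j f') ∈ (Y : Set E)
        rw [this]
        exact hf'
      · intro hf
        exact ⟨j f, ⟨f, hf, rfl⟩, j.symm_apply_apply f⟩
    rw [h4] at h3
    exact h3.separableSpace
  obtain ⟨v, hv, C, hC⟩ := main_D hA1 hN1 hC3 hU8 hL4 _ hYs
  have hw : ∀ t, j.symm (v t) ∈ Y := by
    intro t
    obtain ⟨f, hf, hft⟩ := hv t
    rw [← hft]
    have : j.symm (j f) = f := j.symm_apply_apply f
    change j.symm (j f) ∈ Y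
    rw [this]
    exact hf
  let w : Tree → Y := fun t => ⟨j.symm (v t), hw t⟩
  let T0 : (Tree →₀ ℝ) →ₗ[ℝ] Y := Finsupp.linearCombination ℝ w
  let Z : Submodule ℝ Y := (LinearMap.range T0).topologicalClosure
  have hZc : IsClosed (Z : Set Y) := Submodule.isClosed_topologicalClosure _
  have : CompleteSpace Z := hZc.completeSpace_coe
  let S0 : Submodule ℝ E := Submodule.span ℝ (range fun a => j.symm (es a))
  let B : Submodule ℝ E := S0.topologicalClosure
  have hBc : IsClosed (B : Set E) := Submodule.isClosed_topologicalClosure _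
  have : CompleteSpace B := hBc.completeSpace_coe
  let T1 : (Tree →₀ ℝ) →ₗ[ℝ] Z := T0.codRestrict Z
    (fun a => Submodule.le_topologicalClosure _ (LinearMap.mem_range_self T0 a))
  let R0 : (Tree →₀ ℝ) →ₗ[ℝ] E := Finsupp.linearCombination ℝ (fun a => j.symm (es a))
  have hR0 : LinearMap.range R0 = S0 := Finsupp.range_linearCombination ℝ
  let R1 : (Tree →₀ ℝ) →ₗ[ℝ] B := R0.codRestrict B
    (fun a => Submodule.le_topologicalClosure _ (hR0 ▸ LinearMap.mem_range_self R0 a))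
  have hdT : DenseRange T1 := by
    rw [DenseRange, dense_iff_closure_eq, Set.eq_univ_iff_forall]
    intro z
    rw [closure_subtype]
    have h5 : (Subtype.val : Z → Y) '' Set.range T1 = (LinearMap.range T0 : Set Y) := by
      ext f
      constructor
      · rintro ⟨g, ⟨a, rfl⟩, rfl⟩
        exact ⟨a, rfl⟩
      · rintro ⟨a, rfl⟩
        exact ⟨T1 a, ⟨a, rfl⟩, rfl⟩
    rw [h5]
    exact z.2
  have hdR : DenseRange R1 := by
    rw [DenseRange, dense_iff_closure_eq, Set.eq_univ_iff_forall]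
    intro z
    rw [closure_subtype]
    have h5 : (Subtype.val : B → E) '' Set.range R1 = (S0 : Set E) := by
      rw [← hR0]
      ext f
      constructor
      · rintro ⟨g, ⟨a, rfl⟩, rfl⟩
        exact ⟨a, rfl⟩
      · rintro ⟨a, rfl⟩
        exact ⟨R1 a, ⟨a, rfl⟩, rfl⟩
    rw [h5]
    exact z.2
  have nT : ∀ a, ‖T1 a‖ = ‖Finsupp.linearCombination ℝ v a‖ := by
    intro a
    have h5 : ‖T1 a‖ = ‖((T0 a : Y) : E)‖ := rfl
    have h6 : ((T0 a : Y) : E) = j.symm (Finsupp.linearCombination ℝ v a) := by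
      simp only [T0, Finsupp.linearCombination_apply, Finsupp.sum]
      rw [map_sum, Submodule.coe_sum]
      exact Finset.sum_congr rfl fun t _ => by rw [map_smul]; rfl
    rw [h5, h6, LinearIsometryEquiv.norm_map]
  have nR : ∀ a, ‖R1 a‖ = ‖Finsupp.linearCombination ℝ es a‖ := by
    intro a
    have h5 : ‖R1 a‖ = ‖R0 a‖ := rfl
    have h6 : R0 a = j.symm (Finsupp.linearCombination ℝ es a) := by
      simp only [R0, Finsupp.linearCombination_apply, Finsupp.sum]
      rw [map_sum]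
      exact Finset.sum_congr rfl fun t _ => by rw [map_smul]
    rw [h5, h6, LinearIsometryEquiv.norm_map]
  refine ⟨Z, hZc, ⟨(LinearEquiv.refl ℝ (Tree →₀ ℝ)).extend T1 R1 hdT ⟨2, fun a => ?_⟩ hdR
    ⟨C, fun a => ?_⟩⟩⟩
  · change ‖R1 a‖ ≤ 2 * ‖T1 a‖
    rw [nT, nR]
    exact (hC a).2
  · change ‖T1 a‖ ≤ C * ‖R1 a‖
    rw [nT, nR]
    exact (hC a).1

end Run7.h49.JT
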