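import Pool.Agent.R277.JT.Compl

/-!
# Non-separable subspaces of `JT*` contain the predual `B` of `JT` (MP_245e03_an, Q2): interface

Everything happens in `D Tree`, the dual of the finitely supported functions on the dyadic tree
with the James norm (files `Pool.Agent.R277.JT.*` of the starting tree).
Main facts there: `norm_le_of`, `fam_le`, `seg_inter`, `indexed`, `sum_sq_abs` (Def, Basic),
`cut`, `norm_cut_le`, `cut_lo_add`, `norm_le_of_sq` (Dual), `br`, `sg`, `sg_eq`, `sg_ev`,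
`sg_ev_br`, `sg_ev_br_ne`, `sg_ev_lt`, `tails_sq`, `norm_sum_tails_le`, `Lm`, `tendsto_Lm`,
`abs_Lm_le` (Branch), `br_ne`, `br_ne_of`, `konig` (Tree), `Sep`, `Lm_sg`, `sum_Lm_sq`,
`summable_Lm_sq`, `structA` (Struct), `expand`, `D_ext`, `norm_sg_le` (Lower), `eT` (Compl).
-/

set_option autoImplicit false

namespace Run7.h49.JT

open Pool.Agent.R277.JT Set Filter Topology

/-- infinite 0-1 sequences, i.e. branches -/
abbrev Br := ℕ → Bool

/-- the coordinate functional of a node -/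
noncomputable def es (a : Tree) : D Tree :=
  LinearMap.mkContinuous
    { toFun := fun x => x.val a
      map_add' := fun x y => val_add x y a
      map_smul' := fun c x => by simp [val_smul] } 1
    (fun x => by rw [one_mul]; exact val_le x a)

lemma es_apply (a : Tree) (x : Pre Tree) : es a x = x.val a := rfl

/-- `p` is an ancestor of `e` in the heap order of the natural numbers (parent `= half`) -/
def anc (p e : ℕ) : Prop := ∃ j : ℕ, e / 2 ^ j = p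

/-- the chain between `b` and `e` -/
def chain (b e : ℕ) : Set ℕ := {t | anc b t ∧ anc t e}

/-- the number of a node of the dyadic tree: write `1` in front and read in binary -/
def io (t : Tree) : ℕ :=
  List.foldl (fun n b => 2 * n + (if b then 1 else 0)) 1 (show List Bool from t)

/-- The well structured sequences: `y t`, `t = 0, 1, 2, ...`, functionals, `σ t i` branches,
`u t i` coefficients, `I t` the finite set of moving indices, `k t`, `K t` levels. -/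
structure Scheme (y : ℕ → D Tree) (σ : ℕ → ℕ → Br) (u : ℕ → ℕ → ℝ) (I : ℕ → Finset ℕ)
    (k K : ℕ → ℕ) (ε : ℕ → ℝ) (M : ℝ) : Prop where
  Kmono : StrictMono K
  kK : ∀ s t, s < t → k s ≤ K t
  Isub : ∀ t, 1 ≤ t → I (t / 2) ⊆ I t
  zero : 0 ∈ I 0
  u0 : ∀ t, u t 0 = 1
  energy : ∀ t, ∑ i ∈ I t, (u t i) ^ 2 ≤ M ^ 2
  newE : ∀ t, 1 ≤ t → ∑ i ∈ I t \ I (t / 2), (u t i) ^ 2 ≤ (ε (t / 2)) ^ 2
  agree : ∀ t, 1 ≤ t → ∀ i ∈ I (t / 2), br (σ t i) (K t) = br (σ (t / 2) i) (K t)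
  sep : ∀ t, ∀ s < t, ∀ s' < t, ∀ i ∈ I s, ∀ i' ∈ I s', σ s i ≠ σ s' i' →
    br (σ s i) (K t) ≠ br (σ s' i') (K t)
  fresh : ∀ t, 1 ≤ t → ∀ i ∈ I (t / 2), ∀ s < t, ∀ i' ∈ I s, σ t i ≠ σ s i'
  dist : ∀ p e, anc p e → ∀ i ∈ I p, ∀ i' ∈ I p, i ≠ i' → br (σ e i) (k p) ≠ br (σ e i') (k p)
  apx : ∀ p e, anc p e →
    ‖y e - y p - ∑ i ∈ I p, u p i • (sg (br (σ e i)) (k p) - sg (br (σ p i)) (k p))‖ ≤ ε p

/-- geometric smallness of the errors -/
def Geo (ε : ℕ → ℝ) (θ : ℝ) : Prop :=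
  ∀ b, 0 ≤ ε b ∧ ε (b / 2) ≤ θ * (1 / 2) ^ (b + 1) ∧ ε (b / 2 / 2) ≤ θ * (1 / 2) ^ (b + 1)

/-- An uncountable family of functionals `y c`, `c ∈ Z`, with `Lm (br c) (y c) = 1`, together with
enumerations `σ c` of the branches on which `y c` has a nonzero limit, `σ c 0 = c`. -/
structure Fam (Z : Set Br) (y : Br → D Tree) (σ : Br → ℕ → Br) (M : ℝ) : Prop where
  unc : ¬ Z.Countable
  bd : ∀ c ∈ Z, ‖y c‖ ≤ M
  inj : ∀ c, Function.Injective (σ c)
  zero : ∀ c, σ c 0 = c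
  cov : ∀ c d, Lm (br d) (y c) ≠ 0 → ∃ i, σ c i = d
  one : ∀ c ∈ Z, Lm (br c) (y c) = 1

/-- the `i`-th coefficient -/
noncomputable def cf (y : Br → D Tree) (σ : Br → ℕ → Br) (c : Br) (i : ℕ) : ℝ :=
  Lm (br (σ c i)) (y c)

/-- A good class `Γ` with its member `c`: all members of `Γ` look alike up to level `k`, their
first `m` branches either coincide (`i ∉ I`) or move (`i ∈ I`), and `c` is a condensation point. -/
structure Good (y : Br → D Tree) (σ : Br → ℕ → Br) (c : Br) (Γ : Set Br) (m k : ℕ)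
    (I : Finset ℕ) (ε : ℝ) : Prop where
  mem : c ∈ Γ
  Ilt : ∀ i ∈ I, i < m
  cond : ∀ K, ¬ {z ∈ Γ | ∀ i < m, br (σ z i) K = br (σ c i) K}.Countable
  mov : ∀ i ∈ I, ∀ d, {z ∈ Γ | σ z i = d}.Countable
  con : ∀ i < m, i ∉ I → ∀ z ∈ Γ, σ z i = σ c i
  apx : ∀ z ∈ Γ, ‖cut (y z) (lv Tree k) - ∑ i ∈ Finset.range m, cf y σ z i • sg (br (σ z i)) k‖ ≤ ε
  coef : ∀ z ∈ Γ, ∑ i ∈ Finset.range m, |cf y σ z i - cf y σ c i| ≤ ε
  low : ∀ z ∈ Γ, ‖cut (y z - y c) (lo Tree k)‖ ≤ ε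
  sep : ∀ z ∈ Γ, ∀ i < m, ∀ j < m, i ≠ j → br (σ z i) k ≠ br (σ z j) k

/-! ## Pieces about one functional -/

/-- A1. Enumeration. The support of `d ↦ Lm (br d) y` is countable (`summable_Lm_sq`,
`Summable.countable_support`); add `c` and a countably infinite set of branches (for example
the branches `fun j => decide (j = n)`), take a bijection with `ℕ` (`Denumerable`) and swap the
index of `c` with `0`. -/
def S_A1 : Prop := ∀ (y : D Tree) (c : Br), ∃ σ : ℕ → Br, Function.Injective σ ∧ σ 0 = c ∧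
  ∀ d, Lm (br d) y ≠ 0 → ∃ i, σ i = d

/-- A2. Approximation of the high part. By `structA` with `ε = δ` there is `F0`. Choose `m ≥ m0`
so large that every `d ∈ F0` with `Lm (br d) y ≠ 0` is some `σ i`, `i < m`. Apply `structA` to
`F = F0 ∪ image σ (range m)`; the terms with `Lm = 0` vanish, so the sum over `F` is the sum over
`image σ (range m)`, i.e. over `range m` by injectivity. Choose `k` large, also so that
`Sep (image σ (range m)) k` (`exists_sep`, `Sep.mono`). -/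
def S_A2 : Prop := ∀ (y : D Tree) (σ : ℕ → Br), Function.Injective σ →
  (∀ d, Lm (br d) y ≠ 0 → ∃ i, σ i = d) → ∀ δ : ℝ, 0 < δ → ∀ m0 k0 : ℕ,
  ∃ m k : ℕ, m0 ≤ m ∧ k0 ≤ k ∧ (∀ i < m, ∀ j < m, i ≠ j → br (σ i) k ≠ br (σ j) k) ∧
    ‖cut y (lv Tree k) - ∑ i ∈ Finset.range m, Lm (br (σ i)) y • sg (br (σ i)) k‖ ≤ δ

/-- A3. The energy of the tail: apply `sum_Lm_sq` to the functional in the hypothesis and the
finite set `image σ J`; for `d = σ i`, `i ∈ J`, its limit along `br d` is `Lm (br d) y`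
(the limits of `cut y (lv Tree k)` are those of `y`; `Lm_sg` for the sum). -/
def S_A3 : Prop := ∀ (y : D Tree) (σ : ℕ → Br), Function.Injective σ → ∀ (m k : ℕ) (δ : ℝ),
  ‖cut y (lv Tree k) - ∑ i ∈ Finset.range m, Lm (br (σ i)) y • sg (br (σ i)) k‖ ≤ δ →
  ∀ J : Finset ℕ, (∀ i ∈ J, m ≤ i) → ∑ i ∈ J, (Lm (br (σ i)) y) ^ 2 ≤ δ ^ 2

/-- A4. Low parts are controlled by finitely many values (see the proof of `cut_lo_small`). -/
def S_A4 : Prop := ∀ (z : D Tree) (k : ℕ),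
  ‖cut z (lo Tree k)‖ ≤ ∑ a ∈ (Lev.fin (I := Tree) k).toFinset, |z (ev a)|

/-! ## Set theory -/

/-- B1. Dichotomy for the first `m` indices: every uncountable set `S` contains an uncountable
set `S'` such that each `f i`, `i < m`, is either constant on `S'` (`i ∉ I`) or has countable
fibres on `S'` (`i ∈ I`). Induction on `m`; if `f m` has an uncountable fibre on the set found so
far, pass to it, otherwise put `m` into `I`. -/
def S_B1 : Prop := ∀ (S : Set Br) (f : ℕ → Br → Br) (m : ℕ), ¬ S.Countable →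
  ∃ (S' : Set Br) (I : Finset ℕ), S' ⊆ S ∧ ¬ S'.Countable ∧ (∀ i ∈ I, i < m) ∧
    (∀ i < m, i ∉ I → ∀ x ∈ S', ∀ x' ∈ S', f i x = f i x') ∧
    (∀ i ∈ I, ∀ d, {x ∈ S' | f i x = d}.Countable)

/-- B2. Condensation: remove from `S` the countably many points which lie in a countable fibre of
some `g K`. -/
def S_B2 : Prop := ∀ (γ : Type) [Countable γ] (S : Set Br) (g : ℕ → Br → γ), ¬ S.Countable →
  ∃ S' ⊆ S, S'.Nonempty ∧ ∀ x ∈ S', ∀ K, ¬ {x' ∈ S' | g K x' = g K x}.Countable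

/-- B3. Pigeonhole: on an uncountable subset finitely many real functions vary by at most `η`
(use `⌊f i x / η⌋`) and a function with values in a countable type is constant. -/
def S_B3 : Prop := ∀ (γ : Type) [Countable γ] (ι : Type) [Finite ι] (S : Set Br) (g : Br → γ)
  (f : ι → Br → ℝ) (η : ℝ), 0 < η → ¬ S.Countable →
  ∃ S' ⊆ S, ¬ S'.Countable ∧ (∀ x ∈ S', ∀ x' ∈ S', g x = g x') ∧
    (∀ x ∈ S', ∀ x' ∈ S', ∀ i, |f i x - f i x'| ≤ η)

/-! ## Construction of the scheme -/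

/-- C1. Refinement. For every `z ∈ S` choose `(m z, k z)` by A2 with `δ = ε`. B3 with
`g z = (m z, k z)`: they are constant `= (m, k)` on an uncountable set. B3 again, with
`ι = Fin m ⊕ {a // a ∈ (Lev.fin k).toFinset}`, `f (inl i) z = cf y σ z i`,
`f (inr a) z = y z (ev a)` and `η` small (`m η ≤ ε`, `card * η ≤ ε`, A4). Then B1 with
`f i z = σ z i`, and then B2 with `g K z = fun i : Fin m => br (σ z i) K`. -/
def S_C1 : Prop := ∀ (Z : Set Br) (y : Br → D Tree) (σ : Br → ℕ → Br) (M : ℝ), Fam Z y σ M →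
  ∀ (S : Set Br) (ε : ℝ) (m0 k0 : ℕ), ¬ S.Countable → 0 < ε →
  ∃ (c : Br) (Γ : Set Br) (m k : ℕ) (I : Finset ℕ), Γ ⊆ S ∧ m0 ≤ m ∧ k0 ≤ k ∧ Good y σ c Γ m k I ε

/-- C2. The step from a parent to a child: apply C1 to
`{z ∈ Γ | ∀ i < m, br (σ z i) K = br (σ c i) K}` minus the countably many `z` with `σ z i ∈ E` for
some `i ∈ I`. If `i ∈ I` were not in `I'`, then `Γ'` would lie in a countable fibre of `σ · i`; if
`i ∈ I'`, `i < m`, `i ∉ I`, then `σ · i` is constant on `Γ'`, which contradicts `mov`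
(`Γ'` is uncountable by `cond`). -/
def S_C2 : Prop := ∀ (Z : Set Br) (y : Br → D Tree) (σ : Br → ℕ → Br) (M : ℝ), Fam Z y σ M →
  ∀ (c : Br) (Γ : Set Br) (m k : ℕ) (I : Finset ℕ) (ε : ℝ), Good y σ c Γ m k I ε →
  ∀ (E : Finset Br) (K : ℕ) (ε' : ℝ), 0 < ε' →
  ∃ (c' : Br) (Γ' : Set Br) (m' k' : ℕ) (I' : Finset ℕ), Γ' ⊆ Γ ∧ m ≤ m' ∧
    Good y σ c' Γ' m' k' I' ε' ∧ (∀ i < m, br (σ c' i) K = br (σ c i) K) ∧
    (∀ i ∈ I, σ c' i ∉ E) ∧ I ⊆ I' ∧ (∀ i ∈ I', i < m → i ∈ I)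

/-- C3. The scheme. Recursion over the natural numbers. Choose a positive `η` with
`Geo (fun p => 4 * η p) θ`, e.g. `4 * η p = θ * (1/2)^(4*p+4)`.
Stage 0: C1 with `S = Z`, `ε = η 0`, `m0 = 1`. Stage `t ≥ 1`: the parent is stage `t / 2`; let
`E` be the finite set of all `σ (c s) i`, `s < t`, `i ∈ I s`; choose `K t` larger than all
`K s`, `k s`, `s < t`, with `Sep E (K t)` (`exists_sep`); apply C2 with `ε' = η t`.
Put `y t := y (c t)`, `σ t i := σ (c t) i`, `u t i := cf y σ (c t) i`.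
`zero`: if `0 ∉ I 0`, then `Γ 0` would be a singleton by `con` and `Fam.zero`.
`energy`: `sum_Lm_sq`. `newE`: A3 for `y (c t)`, `c t ∈ Γ t ⊆ Γ (t/2)`, at the pair
`(m, k)` of `t / 2`. `u0`: `Fam.one`, `Fam.zero`. `dist`: `Good.sep` of `p` for `z = c e ∈ Γ p`.
`apx`: for `anc p e` we have `c e ∈ Γ p`, and `y e - y p - ∑_{i ∈ I p} ... =
cut (y e - y p) (lo k) + [cut (y e) (lv k) - ∑_{i<m} u e i • sg (σ e i) k]
- [cut (y p) (lv k) - ∑_{i<m} u p i • sg (σ p i) k]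
+ ∑_{i<m} (u e i - u p i) • sg (σ e i) k`, the terms `i ∉ I p` cancel by `con`; four terms of
norm `≤ η p`. -/
def S_C3 : Prop := ∀ (Z : Set Br) (y : Br → D Tree) (σ : Br → ℕ → Br) (M : ℝ), Fam Z y σ M →
  ∀ θ : ℝ, 0 < θ → ∃ (c : ℕ → Br) (I : ℕ → Finset ℕ) (k K : ℕ → ℕ) (ε : ℕ → ℝ),
    (∀ t, c t ∈ Z) ∧ Geo ε θ ∧
    Scheme (fun t => y (c t)) (fun t => σ (c t)) (fun t => cf y σ (c t)) I k K ε M

/-! ## The upper estimate -/

/-- U1. Different positive tails are disjoint. Strong induction on `e + e'`; `e ≠ e'` since `e`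
would be in both chains; by symmetry `e' < e`. Let `q = e / 2` and `p = b / 2`; `I` is monotone
along `anc`, `i ∈ I q`.
If `n ≤ K e`, then `br (σ e i) n = br (σ q i) n` by `agree` (and `br_ne_of`). If `e = b`,
then `q = p`, contradiction with the hypothesis. If `e ≠ b`, then `anc b q` and the induction
hypothesis for `q` gives the claim.
If `n > K e`, suppose `br (σ e i) n = br (σ e' i') n`. Then they agree at the level `K e`, so
`br (σ q i) (K e) = br (σ e' i') (K e)` and `sep` gives `σ q i = σ e' i'`.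
If `e = b`, then `q = p`, contradiction with the first hypothesis. If `e ≠ b`, then `anc b q`,
`i ∈ I (q / 2)`, `i' ∈ I (e' / 2)`, so `fresh` at `q` and at `e'` excludes `e' < q` and
`q < e'`; hence `q = e'` lies in both chains, contradiction. -/
def S_U1 : Prop := ∀ (y : ℕ → D Tree) (σ : ℕ → ℕ → Br) (u : ℕ → ℕ → ℝ) (I : ℕ → Finset ℕ)
  (k K : ℕ → ℕ) (ε : ℕ → ℝ) (M : ℝ), Scheme y σ u I k K ε M →
  ∀ b e b' e' : ℕ, 1 ≤ b → 1 ≤ b' → anc b e → anc b' e' → Disjoint (chain b e) (chain b' e') →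
  ∀ i ∈ I (b / 2), ∀ i' ∈ I (b' / 2), ∀ n, br (σ e i) n ≠ br (σ (b / 2) i) n →
    br (σ e' i') n ≠ br (σ (b' / 2) i') n → br (σ e i) n ≠ br (σ e' i') n

/-- U2. Along a chain the branches agree with the branch of the parent of the first element up to
the level `K b`: induction on `e` with `agree`, `Kmono`, `anc`. -/
def S_U2 : Prop := ∀ (y : ℕ → D Tree) (σ : ℕ → ℕ → Br) (u : ℕ → ℕ → ℝ) (I : ℕ → Finset ℕ)
  (k K : ℕ → ℕ) (ε : ℕ → ℝ) (M : ℝ), Scheme y σ u I k K ε M →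
  ∀ b e : ℕ, 1 ≤ b → anc b e → ∀ i ∈ I (b / 2), ∀ n ≤ K b, br (σ e i) n = br (σ (b / 2) i) n

/-- U3. Different negative tails (old indices) are disjoint. By U2 both `n > K b` and
`n > K b'`. By symmetry `b / 2 < b' / 2`; if the branches agreed at `n`, they would agree at
`K b'`, so `sep` gives `σ (b / 2) i = σ (b' / 2) i'`, which contradicts `fresh` at `b' / 2`. -/
def S_U3 : Prop := ∀ (y : ℕ → D Tree) (σ : ℕ → ℕ → Br) (u : ℕ → ℕ → ℝ) (I : ℕ → Finset ℕ)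
  (k K : ℕ → ℕ) (ε : ℕ → ℝ) (M : ℝ), Scheme y σ u I k K ε M →
  ∀ b e b' e' : ℕ, 1 ≤ b → 1 ≤ b' → anc b e → anc b' e' → b / 2 ≠ b' / 2 →
  ∀ i ∈ I (b / 2 / 2), ∀ i' ∈ I (b' / 2 / 2), ∀ n, br (σ (b / 2) i) n ≠ br (σ e i) n →
    br (σ (b' / 2) i') n ≠ br (σ e' i') n → br (σ (b / 2) i) n ≠ br (σ (b' / 2) i') n

/-- U4. Differences of tail functionals: if the two branches agree below `l` and `k ≤ l`, then the
difference of the tails does not change if `k` is replaced by `l`. -/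
def S_U4 : Prop := ∀ (c d : Br) (k l : ℕ), k ≤ l → (∀ n < l, br c n = br d n) →
  sg (br c) k - sg (br d) k = sg (br c) l - sg (br d) l

/-- U5. The main estimate. For `q = (b, e) ∈ s` put `p = b / 2`; for `i ∈ I p` the branches
`σ e i`, `σ p i` differ (`fresh` at `e`); let `l` be the first level where they differ,
`l > K b ≥ k p` by U2. By `apx` and U4, `y e - y p = Err + P - Nold - Nnew` with
`‖Err‖ ≤ ε p`, `P = ∑_{i ∈ I p} u p i • sg (br (σ e i)) l`,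
`Nold = ∑_{i ∈ I p ∩ I (p/2)} u p i • sg (br (σ p i)) l`, `Nnew` the same over `I p \ I (p/2)`.
Use `(a+b+c+d)^2 ≤ 4 (a^2+b^2+c^2+d^2)` and Cauchy-Schwarz with `energy`:
`∑_q P(x)^2 ≤ M^2 ‖x‖^2` by `tails_sq` over the pairs `(q, i)` and U1 (for equal `q` and
`i ≠ i'` use `dist`), `∑_q Nold(x)^2 ≤ 2 M^2 ‖x‖^2` by splitting `s` according to the parity of
`b` (then different `q` have different `b / 2`; the `b` are distinct since the chains are
disjoint), U3 and `dist`; `∑_q Nnew(x)^2 ≤ ∑_q (ε (p/2))^2 ‖x‖^2 ≤ θ^2 ‖x‖^2` by `newE`,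
`norm_sum_tails_le` or Cauchy-Schwarz and `Geo` (for `p = 0` there are no new indices), and
`∑_q Err(x)^2 ≤ θ^2 ‖x‖^2`. -/
def S_U5 : Prop := ∀ (y : ℕ → D Tree) (σ : ℕ → ℕ → Br) (u : ℕ → ℕ → ℝ) (I : ℕ → Finset ℕ)
  (k K : ℕ → ℕ) (ε : ℕ → ℝ) (M : ℝ), Scheme y σ u I k K ε M → ∀ θ : ℝ, 0 < θ → Geo ε θ →
  ∀ s : Finset (ℕ × ℕ), (∀ q ∈ s, 1 ≤ q.1 ∧ anc q.1 q.2) →
  (∀ q ∈ s, ∀ q' ∈ s, q ≠ q' → Disjoint (chain q.1 q.2) (chain q'.1 q'.2)) →
  ∀ x : Pre Tree, ∑ q ∈ s, ((y q.2 - y (q.1 / 2)) x) ^ 2 ≤ (12 * M ^ 2 + 8 * θ ^ 2) * ‖x‖ ^ 2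

/-- U6. Facts about the numbering `io` of the nodes. -/
def S_U6 : Prop := (∀ t, 1 ≤ io t) ∧ Function.Injective io ∧
  (∀ (t : List Bool) (b : Bool), io (show Tree from t ++ [b]) / 2 = io (show Tree from t)) ∧
  (∀ s t : Tree, s ≤ t ↔ anc (io s) (io t)) ∧
  (∀ b e : Tree, b ≤ e → chain (io b) (io e) = io '' Icc b e)

/-- U7. Telescoping along a segment of the tree: induction on the length of `e`. -/
def S_U7 : Prop := ∀ (E : Type) [AddCommGroup E] (w : ℕ → E) (S : Finset Tree) (b e : Tree),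
  b ≤ e → (∀ c, c ∈ S ↔ b ≤ c ∧ c ≤ e) →
  ∑ t ∈ S, (w (io t) - w (io t / 2)) = w (io e) - w (io b / 2)

/-- U8. The upper estimate. `g := ∑ a t • es t`. For `x : Pre Tree` let `N` be such that
`a t = 0` for `lev t ≥ N`, `F = (Lev.fin N).toFinset` and
`X := ∑ t ∈ F, (y (io t) - y (io t / 2)) x • ev t`. Then `g X = (∑ a t • (...)) x`, so it is
enough to show `‖X‖ ≤ C ‖x‖`: `norm_le_of`; for a segment `S` the set `S ∩ F` is a segment
`[b, e]` or empty (`seg_inter` with `lo Tree N`), the sum over it is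
`(y (io e) - y (io b / 2)) x` by U7, and U5 applies to the pairs `(io b, io e)`, whose
chains are disjoint by U6. -/
def S_U8 : Prop := ∀ (y : ℕ → D Tree) (σ : ℕ → ℕ → Br) (u : ℕ → ℕ → ℝ) (I : ℕ → Finset ℕ)
  (k K : ℕ → ℕ) (ε : ℕ → ℝ) (M : ℝ), Scheme y σ u I k K ε M → ∀ θ : ℝ, 0 < θ → Geo ε θ →
  ∃ C : ℝ, ∀ a : Tree →₀ ℝ, ‖Finsupp.linearCombination ℝ (fun t => y (io t) - y (io t / 2)) a‖ ≤
    C * ‖Finsupp.linearCombination ℝ es a‖

/-! ## The lower estimate -/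

/-- L1. The nodes `Φ t = br (σ (io t) 0) (K (io t + 1))` form a copy of the tree. In numbers
(`1 ≤ s`, `φ t = br (σ t 0) (K (t+1))`): if `s` is a proper ancestor of `t` then `br (σ t 0)`
and `br (σ s 0)` agree up to `K (s+1)` (`agree`, induction). Conversely, if
`φ s ≤ φ t` and `s ≠ t`, then `s < t` (levels) and `br (σ t 0) (K (s+1)) = φ s`; strong induction
on `t`: let `q = t / 2`; `br (σ q 0) (K (s+1)) = φ s` as `K (s+1) ≤ K t`. If `q = s` done, if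
`q > s` induction, if `q < s` then `sep` at `s + 1` gives `σ q 0 = σ s 0`, which contradicts
`fresh` at `s`. (`0 ∈ I t` for all `t`.) Then U6. -/
def S_L1 : Prop := ∀ (y : ℕ → D Tree) (σ : ℕ → ℕ → Br) (u : ℕ → ℕ → ℝ) (I : ℕ → Finset ℕ)
  (k K : ℕ → ℕ) (ε : ℕ → ℝ) (M : ℝ), Scheme y σ u I k K ε M →
  ∀ s t : Tree, (br (σ (io s) 0) (K (io s + 1)) : Tree) ≤ br (σ (io t) 0) (K (io t + 1)) ↔ s ≤ t

/-- L2. Push-forward along an order embedding of the tree into itself is a contraction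
(like `norm_pushL_le` in `Lower`: the preimage of a segment is a segment or empty, since the
predecessors of a node form a chain). -/
def S_L2 : Prop := ∀ Φ : Tree → Tree, (∀ s t, Φ s ≤ Φ t ↔ s ≤ t) →
  ∃ P : Pre Tree →L[ℝ] Pre Tree, (∀ t, P (ev t) = ev (Φ t)) ∧ ∀ x, ‖P x‖ ≤ ‖x‖

/-- L3. The main part seen at the nodes `φ s`. With `t ≥ 1`, `p = t / 2`, `s ≥ 1`, `i ∈ I p`:
`(sg (br (σ t i)) (k p) - sg (br (σ p i)) (k p)) (ev (φ s)) = 1` if `s = t` and `i = 0`,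
and `= 0` otherwise. If `s < t`: `K (s+1) ≤ K t`, so the two branches agree at this level.
If `s = t`: `sep` at `t+1` and `fresh` at `t`, `dist` for `i ≠ 0`, `k p ≤ K t`. If `s > t`:
`sep` at `s+1` and `fresh` at `s`. -/
def S_L3 : Prop := ∀ (y : ℕ → D Tree) (σ : ℕ → ℕ → Br) (u : ℕ → ℕ → ℝ) (I : ℕ → Finset ℕ)
  (k K : ℕ → ℕ) (ε : ℕ → ℝ) (M : ℝ), Scheme y σ u I k K ε M →
  ∀ s t : ℕ, 1 ≤ s → 1 ≤ t → ∀ i ∈ I (t / 2),
    (sg (br (σ t i)) (k (t / 2)) - sg (br (σ (t / 2) i)) (k (t / 2)))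
      (ev (br (σ s 0) (K (s + 1)))) = if s = t ∧ i = 0 then 1 else 0

/-- L4. The lower estimate. `g := ∑ a t • es t`, `Φ`, `P` from L1 and L2. By L3, `u0` and `D_ext`,
`(y (io t) - y (io t / 2)).comp P = es t + R t` with `‖R t‖ ≤ ε (io t / 2)`. Since
`|a t| = |g (ev t)| ≤ ‖g‖` and `∑ ε (io t / 2) ≤ θ ≤ 1/2`
(`io` is injective, `Geo`), `‖∑ a t • (...)‖ ≥ ‖(∑ a t • (...)).comp P‖ ≥ ‖g‖ - θ ‖g‖`. -/
def S_L4 : Prop := ∀ (y : ℕ → D Tree) (σ : ℕ → ℕ → Br) (u : ℕ → ℕ → ℝ) (I : ℕ → Finset ℕ)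
  (k K : ℕ → ℕ) (ε : ℕ → ℝ) (M : ℝ), Scheme y σ u I k K ε M →
  ∀ θ : ℝ, 0 < θ → θ ≤ 1 / 2 → Geo ε θ → ∀ a : Tree →₀ ℝ,
  ‖Finsupp.linearCombination ℝ es a‖ ≤
    2 * ‖Finsupp.linearCombination ℝ (fun t => y (io t) - y (io t / 2)) a‖

/-! ## The family and the end -/

/-- N1. If only countably many branches `c` have `Lm (br c) f ≠ 0` for some `f ∈ Y`, then `Y` is
separable: by `structA` and `cut_lo_add` every `f ∈ Y` is a limit of finite linear combinations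
of the countably many functionals `es a` and `sg (br c) k`, `c` in this countable set
(`cut f (lo Tree k)` is a combination of the `es a`, `lev a < k`). Otherwise, for each
`c` in the uncountable set choose `f ∈ Y` with `Lm (br c) f = 1` by scaling; for some `M`
uncountably many of them have norm `≤ M`. -/
def S_N1 : Prop := ∀ Y : Submodule ℝ (D Tree), ¬ TopologicalSpace.IsSeparable (Y : Set (D Tree)) →
  ∃ (Z : Set Br) (y : Br → D Tree) (M : ℝ), ¬ Z.Countable ∧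
    ∀ c ∈ Z, y c ∈ Y ∧ ‖y c‖ ≤ M ∧ Lm (br c) (y c) = 1

end Run7.h49.JT
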